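import Pool.Agent.Helper48.OD.St

set_option autoImplicit false

namespace Pool.Agent.Helper62.OD

open Pool.Agent.Helper43.GD Pool.Agent.Helper48.OD

theorem hIDP : StIDP := by
  intro L _ hfin
  obtain ⟨p, p', hne, hpp⟩ := Finite.exists_ne_map_eq_of_infinite (fun n : ℕ => (2 : L) ^ n)
  obtain ⟨a, q, hq, ha⟩ : ∃ a q : ℕ, 1 ≤ q ∧ (2 : L) ^ a = 2 ^ (a + q) := by
    rcases lt_or_gt_of_ne hne with h | h
    · exact ⟨p, p' - p, by omega, by rw [hpp]; congr 1; omega⟩
    · exact ⟨p', p - p', by omega, by rw [← hpp]; congr 1; omega⟩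
  have h1 : ∀ k n : ℕ, a ≤ n → (2 : L) ^ (n + k * q) = 2 ^ n := by
    intro k
    induction k with
    | zero => intro n _; simp
    | succ k ih =>
      intro n hn
      obtain ⟨d, rfl⟩ := Nat.exists_eq_add_of_le hn
      have e1 : a + d + (k + 1) * q = (a + q) + (d + k * q) := by ring
      rw [e1, pow_add, ← ha, ← pow_add, ← add_assoc]
      exact ih (a + d) hn
  obtain ⟨j, hj⟩ : ∃ j, j = (a + 1) * q := ⟨_, rfl⟩
  have hja : a ≤ j := by
    rw [hj]
    nlinarith
  have hj1 : 1 ≤ j := by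
    rw [hj]
    nlinarith
  have hff : (2 : L) ^ j * 2 ^ j = 2 ^ j := by
    rw [← pow_add]
    nth_rewrite 2 [hj]
    exact h1 (a + 1) j hja
  obtain ⟨f, hf⟩ : ∃ f : L, f = 2 ^ j := ⟨_, rfl⟩
  rw [← hf] at hff
  have hfpow : ∀ k : ℕ, f ^ (k + 1) = f := by
    intro k
    induction k with
    | zero => simp
    | succ k ih => rw [pow_succ, ih, hff]
  have hcard0 : (Nat.card L : L) = 0 := by
    have : Fintype L := Fintype.ofFinite L
    rw [Nat.card_eq_fintype_card]
    exact Nat.cast_card_eq_zero L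
  obtain ⟨t, m, hm, hc⟩ := Nat.exists_eq_two_pow_mul_odd (Nat.card_pos (α := L)).ne'
  refine ⟨1 - f, 2 ^ (j - 1), j, m, ?_, ?_, hm, ?_, ?_, ?_, ?_⟩
  · linear_combination hff
  · rw [← hf]
    linear_combination -hff
  · rw [sub_sub_cancel, ← hfpow t, hf, ← pow_mul]
    have e2 : j * (t + 1) = t + (j * (t + 1) - t) := by
      have : t ≤ j * (t + 1) := by nlinarith
      omega
    rw [e2, pow_add, ← mul_assoc]
    have e3 : (m : L) * 2 ^ t = 0 := by
      rw [← hcard0, hc]
      push_cast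
      ring
    rw [e3, zero_mul]
  · rw [sub_sub_cancel, hf, ← pow_succ']
    congr 1
    omega
  · intro h
    have h2 : (2 : L) ^ j = 1 := by
      rw [← hf]
      linear_combination -h
    exact IsUnit.of_pow_eq_one h2 (by omega)
  · intro h
    refine ⟨j, ?_⟩
    rw [← hf]
    linear_combination -h

end Pool.Agent.Helper62.OD
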